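import Pool.Agent.H190R3.WeiWords
import Pool.Agent.Q205.Rainbow

/-!
# Hindman's theorem for sums of exactly two elements is not Weihrauch reducible to the rainbow
Ramsey theorem for pairs

Let `c` be the constant colouring `0` and let `c' n` be `0` below `n` and `1` from `n` on.  The
instances `Φ (c' n)` converge to `Φ c`.  Call `a`, `b` partners if for many `n` and many `y` the pairs
`{a, y}` and `{b, y}` have the same colour in `Φ (c' n)`; a number has at most one partner.  A
solution of `Φ c` without partners makes `Ψ` print two elements `a`, `b`, and the part of it which was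
read extends to a solution of `Φ (c' n)` for some `n > a + b`.
-/

set_option autoImplicit false

namespace Pool.Agent.Results.MP_6fabb2_lc.NotWeihrauch

open Pool.Agent.H190R3.Wei

/-- A problem: its instances, which are points of Baire space, and the solutions of each of
them. -/
structure Problem where
  /-- the set of instances -/
  inst : Set (ℕ → ℕ)
  /-- the set of solutions of an instance -/
  sol : (ℕ → ℕ) → Set (ℕ → ℕ)

/-- `z` is the characteristic function of an infinite set of natural numbers. -/
def IsInfiniteSet (z : ℕ → ℕ) : Prop := (∀ n, z n < 2) ∧ {n | z n = 1}.Infinite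

/-- Hindman's theorem for sums of exactly two elements and two colours: the solutions of a
two-colouring `x` of the natural numbers are the infinite sets `H` such that `x` is constant on the
sums `a + b`, `a < b` in `H`. -/
def HT2 : Problem where
  inst := {x | ∀ n, x n < 2}
  sol x := {z | IsInfiniteSet z ∧ ∃ i, ∀ a b, a < b → z a = 1 → z b = 1 → x (a + b) = i}

/-- The rainbow Ramsey theorem for pairs and 2-bounded colourings: the colour of the pair `a < b`
under the instance `x` is `x (Nat.pair a b)`, each colour is given to at most two pairs, and the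
solutions are the infinite sets on whose pairs the colouring is injective. -/
def RRT22 : Problem where
  inst := {x | ∀ i, {p : ℕ × ℕ | p.1 < p.2 ∧ x (Nat.pair p.1 p.2) = i}.encard ≤ 2}
  sol x := {z | IsInfiniteSet z ∧ ∀ a b a' b', a < b → a' < b' → z a = 1 → z b = 1 →
    z a' = 1 → z b' = 1 → x (Nat.pair a b) = x (Nat.pair a' b') → a = a' ∧ b = b'}

/-- The functionals given by `φ` and `ψ` reduce `P` to `Q`: for every instance `x` of `P`, `Φ(x)` is
an instance of `Q`, and for every solution `z` of `Φ(x)`, `Ψ(x ⊕ z)` is a solution of `x`. -/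
def Reduces (φ ψ : List ℕ → List ℕ) (P Q : Problem) : Prop :=
  ∀ x ∈ P.inst, ∃ y ∈ Q.inst, Maps φ x y ∧
    ∀ z ∈ Q.sol y, ∃ w ∈ P.sol x, Maps ψ (pair x z) w

/-- Weihrauch reducibility: the functionals are given by computable monotone word functions. -/
def WeihrauchLE (P Q : Problem) : Prop :=
  ∃ φ ψ : List ℕ → List ℕ, IsMachine φ ∧ IsMachine ψ ∧ Reduces φ ψ P Q

/-- Continuous Weihrauch reducibility: arbitrary word functions. -/
def ContinuousLE (P Q : Problem) : Prop := ∃ φ ψ : List ℕ → List ℕ, Reduces φ ψ P Q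

theorem init_congr {x y : ℕ → ℕ} {m : ℕ} (h : ∀ k < m, x k = y k) : init x m = init y m := by
  apply List.map_congr_left
  intro k hk
  exact h k (List.mem_range.1 hk)

/-- The values of a functional are continuous. -/
theorem maps_congr {φ : List ℕ → List ℕ} {x y x' y' : ℕ → ℕ} {m n : ℕ} (h : Maps φ x y)
    (hm : n ≤ (φ (init x m)).length) (hx : ∀ k < m, x k = x' k) (h' : Maps φ x' y') :
    ∀ k < n, y' k = y k := by
  intro k hk
  have h1 := h.1 m
  have h2 := h'.1 m
  rw [← init_congr hx] at h2
  have e0 := init_getD y (φ (init x m)).length k 0 (by omega)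
  have e1 := init_getD y' (φ (init x m)).length k 0 (by omega)
  rw [← e0, ← e1, ← h1, ← h2]

open Classical in
theorem sol_of_set {x : ℕ → ℕ} {R : Set ℕ} (h1 : R.Infinite) (h2 : Pool.Agent.Q205.Rainbow.Rb x R) :
    (fun k => if k ∈ R then 1 else 0) ∈ RRT22.sol x := by
  have key : ∀ k, (if k ∈ R then 1 else 0) = 1 → k ∈ R := by
    intro k hk
    by_contra hcon
    rw [if_neg hcon] at hk
    omega
  refine ⟨⟨fun n => ?_, ?_⟩, ?_⟩
  · beta_reduce
    split_ifs <;> omega
  · refine h1.mono fun k hk => ?_
    show (if k ∈ R then 1 else 0) = 1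
    rw [if_pos hk]
  · intro a b a' b' hab hab' ha hb ha' hb' heq
    exact h2 a b a' b' hab hab' (key a ha) (key b hb) (key a' ha') (key b' hb') heq

theorem not_continuous : ¬ ContinuousLE HT2 RRT22 := by
  classical
  rintro ⟨φ, ψ, h⟩
  obtain ⟨d, hd, hφ, h0⟩ := h (fun _ => 0) (fun _ => Nat.zero_lt_two)
  have h1 := fun n : ℕ => h (fun k => if k < n then 0 else 1) (fun k => by
    beta_reduce
    split_ifs <;> omega)
  choose d' hd' hφ' h1 using h1
  obtain ⟨R, hR1, hR2, hR3⟩ := Pool.Agent.Q205.Rainbow.main (d := d) hd (d' := d') hd' (by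
    intro k
    obtain ⟨m, hm⟩ := hφ.2 (k + 1)
    refine ⟨m, fun n hn => ?_⟩
    refine maps_congr hφ hm (fun j hj => ?_) (hφ' n) k (Nat.lt_succ_self k)
    rw [if_pos (by omega)])
  obtain ⟨w, ⟨⟨-, hw1⟩, -⟩, hw⟩ := h0 _ (sol_of_set hR1 hR2)
  obtain ⟨a, ha⟩ := hw1.nonempty
  obtain ⟨b, hb, hab⟩ := hw1.exists_gt a
  obtain ⟨m, hm⟩ := hw.2 (b + 1)
  obtain ⟨n, hn, R', hR'1, hR'2, hR'3⟩ := hR3 m (m + a + b + 1)
  obtain ⟨w', ⟨⟨-, hw'1⟩, i, hi⟩, hw'⟩ := h1 n _ (sol_of_set hR'1 hR'2)
  have key : ∀ k < b + 1, w' k = w k := by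
    refine maps_congr hw hm (fun j hj => ?_) hw'
    unfold pair
    split_ifs with h2
    · beta_reduce
      rw [if_pos (by omega)]
    · beta_reduce
      rw [if_congr (hR'3 (j / 2) (by omega)) rfl rfl]
  have ha' : w' a = 1 := (key a (by omega)).trans ha
  have hb' : w' b = 1 := (key b (by omega)).trans hb
  have h2 := hi a b hab ha' hb'
  beta_reduce at h2
  rw [if_pos (by omega)] at h2
  obtain ⟨c, hc, hcn⟩ := hw'1.exists_gt (n + a)
  have h3 := hi a c (by omega) ha' hc
  beta_reduce at h3
  rw [if_neg (by omega)] at h3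
  omega

/-- Hindman's theorem for sums of exactly two elements with two colours is not Weihrauch reducible
to the rainbow Ramsey theorem for pairs, not even by means of continuous functionals. -/
theorem result : ¬ WeihrauchLE HT2 RRT22 ∧ ¬ ContinuousLE HT2 RRT22 := by
  refine ⟨?_, not_continuous⟩
  rintro ⟨φ, ψ, -, -, h⟩
  exact not_continuous ⟨φ, ψ, h⟩

end Pool.Agent.Results.MP_6fabb2_lc.NotWeihrauch
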