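import Pool.Agent.Q205.NH.All
import Pool.Agent.Q205.NH.FinA
import Pool.Agent.Q56.NH.R1
import Pool.Agent.Q56.NH.R2
import Pool.Agent.Q56.NH.ID
import Pool.Agent.Q56.NH.MD

set_option autoImplicit false

/-!
# The rainbow Ramsey theorem for pairs does not imply Hindman's theorem for exactly two summands

An `ω`-model of `RCA₀ + RRT²₂` in which `HT^{=n}_k` fails for all `n, k ≥ 2`, with one computable
two-colouring as the counterexample for all of them.  The colouring is the one for which almost no
oracle computes a solution.  The model consists of the sets computable from an increasing chain of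
oracles `Z 0, Z 1, ...`, each of which computes no solution; since a sufficiently random oracle
computes, relative to `Z n`, a rainbow set for each `2`-bounded colouring computable from `Z n`, the
next oracle `Z (n + 1) = Z n ⊕ Y` can be taken with `Y` random.
-/

namespace Pool.Agent.Results.MP_6fabb2_lc.OmegaModel

open Pool.Agent.Q205.NH
open Pool.Agent.Helper617.RM (L2Structure IsModelRCA0)

/-- There is a collection `S` of sets of natural numbers which with the standard numbers is a model of
`RCA₀` and of the rainbow Ramsey theorem for pairs and `2`-bounded colourings, and a computable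
two-colouring `c`, a member of the model, such that for no `n ≥ 2` the model has an infinite set all
whose sums of exactly `n` distinct elements have the same colour; so Hindman's theorem for sums of
exactly `n` elements and `k` colours fails in the model for all `n, k ≥ 2`. -/
theorem result : ∃ (S : Set (Set ℕ)) (c : ℕ → Bool),
    IsModelRCA0 (std S) ∧ RRT22 (std S) ∧ Computable c ∧ {x | c x = true} ∈ S ∧
    (∀ n, 2 ≤ n → ∀ X ∈ S, X.Infinite → ¬ ∃ i, ∀ F : Finset ℕ, (∀ x ∈ F, x ∈ X) → F.card = n →
      c (∑ x ∈ F, x) = i) ∧
    ∀ n k, 2 ≤ n → 2 ≤ k → ¬ HTexact (std S) n k :=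
  fin_omega main_ae (Pool.Agent.Q56.NH.idl (rr Pool.Agent.Q56.NH.r1 Pool.Agent.Q56.NH.r2))
    Pool.Agent.Q56.NH.md

end Pool.Agent.Results.MP_6fabb2_lc.OmegaModel
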